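import Pool.Agent.Work.PolyTime.NPClose
import Pool.Agent.Work.PolyTime.Criteria

/-!
A criterion for reductions between problems on coded objects; decoding of options and sums.
-/

set_option autoImplicit false

namespace Pool.Agent.Work.MP_85af13_lc.G

open Pool.Agent.Work.PolyTime

/-- The map on words. -/
def redW {α β : Type} [Code α] [Decode α] [Code β] (t : α → Bool) (F : α → β) (w : List Bool) :
    List Bool :=
  ((parseW α w).bind fun a => some (bif t a then (code (F a)).ser else [])).getD []

theorem nil_notMem {β : Type} [Code β] (wf yes : β → Prop) :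
    ([] : List Bool) ∉ problem wf yes := by
  rintro ⟨b, hb, -⟩
  have := sz_pos b
  rw [sz, ← hb] at this
  simp at this

theorem mem_problem {β : Type} [Code β] [LawfulCode β] (wf yes : β → Prop) (b : β) :
    (code b).ser ∈ problem wf yes ↔ wf b ∧ yes b := by
  constructor
  · rintro ⟨a, ha, h1, h2⟩
    have : b = a := LawfulCode.inj (T.ser_inj ha)
    subst this
    exact ⟨h1, h2⟩
  · rintro ⟨h1, h2⟩
    exact ⟨b, rfl, h1, h2⟩

/-- Reduction of a problem on `α` to a problem on `β`: `t` tests the well-formedness of the
instances, `F` is the map on instances. -/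
theorem reducible_of {α β : Type} [Code α] [LawfulCode α] [Decode α] [Code β] [LawfulCode β]
    {wf yes : α → Prop} {wf2 yes2 : β → Prop} {t : α → Bool} {F : α → β}
    (ht : ∀ a, t a = true ↔ wf a) (htp : PTime t) (hF : PTime F)
    (h2 : ∀ a, wf a → wf2 (F a)) (h : ∀ a, wf a → (yes a ↔ yes2 (F a))) :
    PolyReducible (problem wf yes) (problem wf2 yes2) := by
  refine ⟨redW t F, polyTimeComputable_of_PTime_word ?_, fun w => ?_⟩
  · unfold redW
    refine PTime.getD (PTime.bind (PTime.parseW PTime.id) (PTime.mkSome ?_)) (PTime.const _)
    exact PTime.cond (htp.comp PTime.snd) (PTime.ser (hF.comp PTime.snd)) (PTime.const _)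
  · cases hp : parseW α w with
    | none =>
      have h1 : redW t F w = [] := by simp [redW, hp]
      rw [h1]
      constructor
      · rintro ⟨a, rfl, -⟩
        rw [parseW_ser] at hp; cases hp
      · intro h; exact absurd h (nil_notMem _ _)
    | some a =>
      have hw := parseW_eq_some.1 hp
      subst hw
      rw [mem_problem]
      by_cases hwf : wf a
      · have h1 : redW t F (code a).ser = (code (F a)).ser := by
          simp [redW, parseW_ser, (ht a).2 hwf]
        rw [h1, mem_problem]
        exact ⟨fun hy => ⟨h2 a hwf, (h a hwf).1 hy.2⟩, fun hy => ⟨hwf, (h a hwf).2 hy.2⟩⟩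
      · have ht' : t a = false := by
          rw [← Bool.not_eq_true]; exact fun h => hwf ((ht a).1 h)
        have h1 : redW t F (code a).ser = [] := by simp [redW, parseW_ser, ht']
        rw [h1]
        constructor
        · rintro ⟨h, -⟩; exact absurd h hwf
        · intro h; exact absurd h (nil_notMem _ _)

/-- Decoding of options. -/
def decOption {α : Type} (f : T → Option α) : T → Option (Option α)
  | T.nil => some none
  | T.cons T.nil b => (f b).bind fun x => some (some x)
  | _ => none

theorem PTime.decOption {α : Type} [Code α] {f : T → Option α} (hf : PTime f) :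
    PTime (decOption f) := by
  refine PTime.treeCases (t := fun t : T => t) (by fun_prop) (g := fun _ => some none)
    (h := fun y => bif decide (y.2.1 = T.nil) then (f y.2.2).bind fun x => some (some x) else none)
    (by fun_prop) ?_ ?_ ?_
  · exact PTime.cond (by fun_prop) (PTime.bind (hf.comp (by fun_prop)) (by fun_prop)) (by fun_prop)
  · intro x hx; subst hx; rfl
  · intro x a b hx; subst hx
    cases a <;> rfl

instance {α : Type} [Code α] [Decode α] : Decode (Option α) :=
  ⟨decOption Decode.dec, fun t x => by
    rcases t with _ | ⟨_ | ⟨c, d⟩, e⟩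
    · cases x <;> simp [decOption, code]
    · cases x with
      | none => simp [decOption, code, Option.bind_eq_some_iff]
      | some a =>
        simp only [decOption, Option.bind_eq_some_iff, Option.some.injEq, code, T.cons.injEq,
          true_and]
        constructor
        · rintro ⟨y, hy, rfl⟩; exact code_of_dec hy
        · rintro rfl; exact ⟨a, dec_code a, rfl⟩
    · cases x <;> simp [decOption, code],
    PTime.decOption Decode.ptime⟩

/-- Decoding of sums. -/
def decSum {α β : Type} (f : T → Option α) (g : T → Option β) : T → Option (α ⊕ β)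
  | T.cons T.nil b => (f b).bind fun x => some (Sum.inl x)
  | T.cons (T.cons T.nil T.nil) b => (g b).bind fun x => some (Sum.inr x)
  | _ => none

theorem PTime.decSum {α β : Type} [Code α] [Code β] {f : T → Option α} {g : T → Option β}
    (hf : PTime f) (hg : PTime g) : PTime (decSum f g) := by
  refine PTime.treeCases (t := fun t : T => t) (by fun_prop) (g := fun _ => none)
    (h := fun y => bif decide (y.2.1 = T.nil) then (f y.2.2).bind fun x => some (Sum.inl x)
      else bif decide (y.2.1 = T.cons T.nil T.nil) then (g y.2.2).bind fun x => some (Sum.inr x)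
      else none)
    (by fun_prop) ?_ ?_ ?_
  · exact PTime.cond (by fun_prop) (PTime.bind (hf.comp (by fun_prop)) (by fun_prop))
      (PTime.cond (by fun_prop) (PTime.bind (hg.comp (by fun_prop)) (by fun_prop)) (by fun_prop))
  · intro x hx; subst hx; rfl
  · intro x a b hx; subst hx
    rcases a with _ | ⟨_ | ⟨c, d⟩, _ | ⟨e, f⟩⟩ <;> rfl

instance {α β : Type} [Code α] [Code β] [Decode α] [Decode β] : Decode (α ⊕ β) :=
  ⟨decSum Decode.dec Decode.dec, fun t x => by
    rcases t with _ | ⟨_ | ⟨_ | ⟨c, d⟩, _ | ⟨e', f'⟩⟩, e⟩
    · cases x <;> simp [decSum, code]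
    · cases x with
      | inl a =>
        simp only [decSum, Option.bind_eq_some_iff, Option.some.injEq, Sum.inl.injEq, code,
          T.cons.injEq, true_and]
        constructor
        · rintro ⟨y, hy, rfl⟩; exact code_of_dec hy
        · rintro rfl; exact ⟨a, dec_code a, rfl⟩
      | inr b => simp [decSum, code, Option.bind_eq_some_iff]
    · cases x with
      | inl a => simp [decSum, code, Option.bind_eq_some_iff]
      | inr b =>
        simp only [decSum, Option.bind_eq_some_iff, Option.some.injEq, Sum.inr.injEq, code,
          T.cons.injEq, true_and]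
        constructor
        · rintro ⟨y, hy, rfl⟩; exact code_of_dec hy
        · rintro rfl; exact ⟨b, dec_code b, rfl⟩
    all_goals cases x <;> simp [decSum, code],
    PTime.decSum Decode.ptime Decode.ptime⟩

end Pool.Agent.Work.MP_85af13_lc.G
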