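import Pool.Agent.Work.MP_85af13_lc.G.Defs

/-!
Walks in arenas, and the transformations between min-max systems and mean payoff games.
-/

set_option autoImplicit false

namespace Pool.Agent.Work.MP_85af13_lc.G

open Pool.Agent.Work.PolyTime
open Pool.Agent.Work.MP_63b90e_lc (addB shiftB)
open Pool.Agent.Work.MP_62a643_lc (leB mulN)

/-- The edge `e` can be taken at `v` if the maximizer uses the strategy `σ`. -/
def Av (A : Arena) (σ : ℕ → WEdge) (v : ℕ) (e : WEdge) : Prop :=
  v < A.length ∧ (if owner A v then e = σ v else e ∈ edges A v)

/-- Walks of the arena in which the maximizer uses `σ`. -/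
inductive Walk (A : Arena) (σ : ℕ → WEdge) : ℕ → List WEdge → ℕ → Prop
  | nil (v : ℕ) : Walk A σ v [] v
  | cons {v : ℕ} {e : WEdge} {l : List WEdge} {u : ℕ} :
      Av A σ v e → Walk A σ e.1 l u → Walk A σ v (e :: l) u

/-- The vertices at which the edges of a walk from `v` start. -/
def srcs : ℕ → List WEdge → List ℕ
  | _, [] => []
  | v, e :: l => v :: srcs e.1 l

/-- The total weight of a list of edges. -/
def wsum (l : List WEdge) : ℤ := (l.map wgt).sum

/-- The sum of the absolute values of the weights of all edges. -/
def tot (A : Arena) : ℕ := ((A.flatMap Prod.snd).map fun e => binVal e.2.2).sum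

/-- The same in binary. -/
def totB (A : Arena) : List Bool := sumL ((A.flatMap Prod.snd).map fun e => e.2.2)

/-- Edges of `v`; if there are none, a loop of weight `-1` (maximizer) or `1` (minimizer). -/
def edges' (A : Arena) (v : ℕ) : List WEdge :=
  bif decide (edges A v = []) then [(v, owner A v, [true])] else edges A v

/-- The mean payoff game of a min-max system: a new start vertex of the minimizer with edges of
weight `0` to all vertices (and to itself). -/
def toMP (A : Arena) : Arena × ℕ :=
  ((List.range A.length).map (fun v => (owner A v, edges' A v)) ++
    [(false, (List.range (A.length + 1)).map fun v => (v, false, []))], A.length)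

/-- The min-max system of a mean payoff game with `n` vertices: the vertex `v < n` may use the
ground `2 n` or the vertex `n + v`, which has the owner and the edges of the game; the ground
has an edge of weight `-(1 + tot)` to the start vertex. -/
def toMM (I : Arena × ℕ) : Arena :=
  (List.range I.1.length).map (fun v => (true, [(2 * I.1.length, false, []),
    (I.1.length + v, false, [])])) ++
  I.1 ++ [(false, [(I.2, true, addB [true] (totB I.1))])]

end Pool.Agent.Work.MP_85af13_lc.G
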