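import Pool.Agent.Work.MP_85af13_lc.G.Defs
import Pool.Agent.Work.MP_85af13_lc.Sound

/-!
Coded min-max-average systems and the code of their gadget graphs (definitions only).
-/

set_option autoImplicit false

namespace Pool.Agent.Work.MP_85af13_lc.G

open Pool.Agent.Work.PolyTime
open Pool.Agent.Work.MP_63b90e_lc (addB shiftB)
open Pool.Agent.Work.MP_62a643_lc (leB mulN dv)

/-- A node of a coded min-max-average system: its kind (`some true`: max, `some false`: min,
`none`: average) and two pairs of a target (`none`: the ground) and a constant (sign, absolute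
value in binary). -/
abbrev SNode : Type := Option Bool × (Option ℕ × Bool × List Bool) × (Option ℕ × Bool × List Bool)

/-- A coded system: its nodes, a bound `R` for the values, the threshold `θ`, and the node of the
threshold. -/
abbrev SysCode : Type := List SNode × List Bool × List Bool × ℕ

/-- Default node. -/
def dNode : SNode := (none, (none, false, []), (none, false, []))

/-- Signed integer. -/
def sInt (c : Bool × List Bool) : ℤ := if c.1 then -(binVal c.2 : ℤ) else binVal c.2

/-- Targets; numbers that are not nodes are read as the ground. -/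
def toTgt (n : ℕ) : Option ℕ → Option (Fin n)
  | none => none
  | some u => if h : u < n then some ⟨u, h⟩ else none

/-- The node `v` of a coded system. -/
def nodeOf (Y : SysCode) (v : ℕ) : SNode := Y.1.getD v dNode

/-- The system of a code. -/
def sysOf (Y : SysCode) : Sys (Fin Y.1.length) where
  kind v := kindOf (nodeOf Y v).1
  tgt v i := toTgt Y.1.length (bif i then (nodeOf Y v).2.2.1 else (nodeOf Y v).2.1.1)
  c v i := sInt (bif i then (nodeOf Y v).2.2.2 else (nodeOf Y v).2.1.2)

/-- Solutions of a coded system with value at least `θ` at the node `v0`. -/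
def SysSol (Y : SysCode) (v0 : Fin Y.1.length) (x : Fin Y.1.length → ℤ) : Prop :=
  (binVal Y.2.2.1 : ℤ) ≤ x v0 ∧ ∀ v, match (sysOf Y).kind v with
    | Kind.max => x v ≤ ((sysOf Y).tgt v false).elim 0 x + (sysOf Y).c v false ∨
        x v ≤ ((sysOf Y).tgt v true).elim 0 x + (sysOf Y).c v true
    | Kind.min => x v ≤ ((sysOf Y).tgt v false).elim 0 x + (sysOf Y).c v false ∧
        x v ≤ ((sysOf Y).tgt v true).elim 0 x + (sysOf Y).c v true
    | Kind.avg => 2 * x v ≤ ((sysOf Y).tgt v false).elim 0 x + ((sysOf Y).tgt v true).elim 0 x +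
        (sysOf Y).c v false + (sysOf Y).c v true

/-! ### Numbers -/

/-- Truncated subtraction of binary numbers. -/
def subB (a b : List Bool) : List Bool :=
  bif leB b a then
    (addB (addB a ((List.range (a.length + b.length)).map fun i => !(b.getD i false))) [true]).take
      (a.length + b.length)
  else []

/-- Binary code of a small number. -/
def natB (k : ℕ) : List Bool := mulN k [true]

/-- The sum of the absolute values of all constants. -/
def cTot (Y : SysCode) : List Bool := sumL (Y.1.map fun a => addB a.2.1.2.2 a.2.2.2.2)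

/-- `K = R + (sum of the constants) + (number of nodes) + 2`. -/
def kkB (Y : SysCode) : List Bool := addB (addB Y.2.1 (cTot Y)) (natB (Y.1.length + 2))

/-- `Q = 16 K ^ 3`. -/
def qqB (Y : SysCode) : List Bool := shiftB 4 (mulB (kkB Y) (mulB (kkB Y) (kkB Y)))

/-- `H = 256 K ^ 5`. -/
def hhB (Y : SysCode) : List Bool :=
  shiftB 8 (mulB (mulB (kkB Y) (kkB Y)) (mulB (kkB Y) (mulB (kkB Y) (kkB Y))))

/-- `W = (N + 1) H`. -/
def wwB (Y : SysCode) : List Bool := mulN (Y.1.length + 1) (hhB Y)

/-- The parameters of the gadget. -/
def paramsOf (Y : SysCode) : Params where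
  W := binVal (wwB Y)
  H := binVal (hhB Y)
  Q := binVal (qqB Y)
  R := binVal Y.2.1
  θ := binVal Y.2.2.1

/-! ### The instance -/

/-- The vertex carrying the value of a target. -/
def portI (n : ℕ) : Option ℕ → ℕ
  | none => 3 * n
  | some u => bif decide (u < n) then 3 * u else 3 * n

/-- The edges at the node `v` of the gadget graph: the vertices `3 v`, `3 v + 1`, `3 v + 2` are
`s_v`, `a_v`, `b_v`, and `3 N` is the ground. -/
def gEdgesAt (Y : SysCode) (v : ℕ) : List (ℕ × ℕ × List Bool) :=
  [(3 * v + 1, 3 * v, wwB Y),
   (3 * v + 2, 3 * v + 1, hhB Y),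
   (3 * v + 1, portI Y.1.length (nodeOf Y v).2.1.1, [true]),
   (bif decide ((nodeOf Y v).1 = none) then 3 * v + 1 else 3 * v + 2,
     portI Y.1.length (nodeOf Y v).2.2.1, [true]),
   (3 * v, 3 * Y.1.length, bif decide (v = Y.2.2.2) then qqB Y else [true])]

/-- All edges of the gadget graph. -/
def gEdges (Y : SysCode) : List (ℕ × ℕ × List Bool) :=
  (List.range Y.1.length).flatMap fun v => gEdgesAt Y v

/-- Multiplicity between `p` and `q`. -/
def gEntry (Y : SysCode) (p q : ℕ) : List Bool :=
  sumL ((gEdges Y).map fun e =>
    addB (bif decide (e.1 = p) && decide (e.2.1 = q) then e.2.2 else [])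
      (bif decide (e.2.1 = p) && decide (e.1 = q) then e.2.2 else []))

/-- Degree of `p`. -/
def gDeg (Y : SysCode) (p : ℕ) : List Bool :=
  sumL ((List.range (3 * Y.1.length + 1)).map fun q => gEntry Y p q)

/-- Positive part of a constant. -/
def posB (c : Bool × List Bool) : List Bool := bif c.1 then [] else c.2

/-- Negative part of a constant. -/
def negB (c : Bool × List Bool) : List Bool := bif c.1 then c.2 else []

/-- The constants which enter the slack at `p = 3 v + i`, `i = 1, 2`. -/
def gCst (Y : SysCode) (v i : ℕ) (f : Bool × List Bool → List Bool) : List Bool :=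
  bif decide (i = 1) then
    (bif decide ((nodeOf Y v).1 = none) then
      addB (f (nodeOf Y v).2.1.2) (f (nodeOf Y v).2.2.2)
     else f (nodeOf Y v).2.1.2)
  else (bif decide ((nodeOf Y v).1 = none) then [] else f (nodeOf Y v).2.2.2)

/-- Positive part of the slack at `p`. -/
def gPos (Y : SysCode) (p : ℕ) : List Bool :=
  bif decide (p = 3 * Y.1.length) then natB (2 * Y.1.length)
  else bif decide (p = 3 * dv 3 p) then
    addB (mulB (bif decide (dv 3 p = Y.2.2.2) then qqB Y else [true]) Y.2.1)
      (mulN (2 * Y.1.length) (addB Y.2.1 [true]))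
  else addB (gCst Y (dv 3 p) (p - 3 * dv 3 p) posB)
    (bif decide (p = 3 * dv 3 p + 1) && decide ((nodeOf Y (dv 3 p)).1 = some true) then hhB Y
     else [])

/-- Negative part of the slack at `p`. -/
def gNeg (Y : SysCode) (p : ℕ) : List Bool :=
  bif decide (p = 3 * Y.1.length) then mulB (qqB Y) Y.2.2.1
  else bif decide (p = 3 * dv 3 p) then []
  else gCst Y (dv 3 p) (p - 3 * dv 3 p) negB

/-- Chips at `p`: degree minus one minus slack. -/
def gChip (Y : SysCode) (p : ℕ) : List Bool :=
  subB (addB (gDeg Y p) (gNeg Y p)) (addB [true] (gPos Y p))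

/-- The chip-firing instance of a coded system. -/
def gInst (Y : SysCode) : Inst :=
  ((List.range (3 * Y.1.length + 1)).map fun p =>
    (List.range (3 * Y.1.length + 1)).map fun q => gEntry Y p q,
   (List.range (3 * Y.1.length + 1)).map fun p => gChip Y p)

end Pool.Agent.Work.MP_85af13_lc.G
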