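import Pool.Agent.Work.MP_85af13_lc.G.ADefs
import Pool.Agent.Work.MP_85af13_lc.G.SysDefs

/-!
The min-max-average system (without average nodes) of a min-max system.
-/

set_option autoImplicit false

namespace Pool.Agent.Work.MP_85af13_lc.G

open Pool.Agent.Work.PolyTime
open Pool.Agent.Work.MP_63b90e_lc (addB shiftB)
open Pool.Agent.Work.MP_62a643_lc (leB mulN)

/-- The arena with an additional vertex without edges. -/
def hub (A : Arena) : Arena := A ++ [(false, [])]

/-- Number of slots of every vertex. -/
def slots (A : Arena) : ℕ := (A.flatMap Prod.snd).length + 1

/-- The edge used at the slot `j` of the vertex `v`. -/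
def slotEdge (A : Arena) (v j : ℕ) : WEdge :=
  (edges A v).getD (bif decide (j + 1 ≤ (edges A v).length) then j else (edges A v).length - 1)
    (v, owner A v, [true])

/-- The node of the slot `j` of the vertex `v`: its first target is the head of the slot's edge,
its second target is the next slot (for the last slot again the head of the edge). -/
def slotNode (A : Arena) (v j : ℕ) : SNode :=
  (some (owner A v),
    (some ((slotEdge A v j).1 * slots A), (slotEdge A v j).2.1, (slotEdge A v j).2.2),
    bif decide (j + 2 ≤ slots A) then (some (v * slots A + (j + 1)), false, [])
    else (some ((slotEdge A v j).1 * slots A), (slotEdge A v j).2.1, (slotEdge A v j).2.2))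

/-- The coded system of a min-max system. -/
def sysA (A : Arena) : SysCode :=
  ((List.range A.length).flatMap fun v => (List.range (slots A)).map fun j => slotNode A v j,
    addB (totB A) (totB A), [], 0)

end Pool.Agent.Work.MP_85af13_lc.G
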