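import Pool.Agent.Work.MP_85af13_lc.G.Defs
import Pool.Agent.Work.MP_85af13_lc.Check

/-!
The min-max system of a chip-firing instance (definitions only).

A row has `w = 2 n` registers. Operations: `(0, j)` compares and exchanges the registers `j` and
`j + 1`; `(1, k)` folds the first and the last register at scale `2 ^ k`; `(2, t)` halves the row
(it keeps the registers with even index) and loads `n` new registers of level `t`.
-/

set_option autoImplicit false

namespace Pool.Agent.Work.MP_85af13_lc.G

open Pool.Agent.Work.PolyTime
open Pool.Agent.Work.MP_63b90e_lc (addB shiftB)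
open Pool.Agent.Work.MP_62a643_lc (leB mulN)

/-- An operation on rows. -/
abbrev Op : Type := ℕ × ℕ

/-- Sorting program. -/
def sortP (w : ℕ) : List Op :=
  (List.range w).flatMap fun _ => (List.range (w - 1)).map fun j => (0, j)

/-- `w` rounds of folding at scale `2 ^ k` and sorting. -/
def scaleP (w k : ℕ) : List Op := (List.range w).flatMap fun _ => (1, k) :: sortP w

/-- Balancing program for rows of range at most `2 ^ (b + 1)`. -/
def balP (w b : ℕ) : List Op := (List.range (b + 1)).flatMap fun i => scaleP w (b - i)

/-- The program of level `t`. -/
def levelP (w b t : ℕ) : List Op := (2, t) :: (sortP w ++ balP w b)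

/-- The program for the levels `0, .., T`. -/
def progP (w b T : ℕ) : List Op := (List.range (T + 1)).flatMap fun t => levelP w b t

/-- One operation on a row of `2 n` registers; `U t p` is the value loaded at level `t` into the
register `n + p`. -/
def stepR (n : ℕ) (U : ℕ → ℕ → ℤ) (o : Op) (r : ℕ → ℤ) : ℕ → ℤ := fun i =>
  if o.1 = 0 then
    (if i = o.2 then min (r o.2) (r (o.2 + 1))
     else if i = o.2 + 1 then max (r o.2) (r (o.2 + 1)) else r i)
  else if o.1 = 1 then
    (if i = 0 then max (r 0) (r (2 * n - 1) - 2 ^ o.2)
     else if i = 2 * n - 1 then min (r (2 * n - 1)) (r 0 + 2 ^ o.2) else r i)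
  else (if i < n then r (2 * i) else U o.2 (i - n))

/-- A program applied to a row. -/
def runR (n : ℕ) (U : ℕ → ℕ → ℤ) (l : List Op) (r : ℕ → ℤ) : ℕ → ℤ :=
  l.foldl (fun r o => stepR n U o r) r

/-! ### The min-max system -/

/-- Exponent of the bound for all numbers of an instance. -/
def bdI (I : Inst) : ℕ := 6 * (code I).ser.length + 12

/-- Edge of weight `0`. -/
def e0 (q : ℕ) : WEdge := (q, false, [])

/-- `2 ^ k` in binary. -/
def pw (k : ℕ) : List Bool := shiftB k [true]

/-- The program of an instance. -/
def progI (I : Inst) : List Op := progP (2 * I.2.length) (bdI I) (bdI I)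

/-- The number of the register `i` of the row `l` of the vertex `v`. -/
def nodeI (n L v l i : ℕ) : ℕ := n + ((v * (L + 1) + l) * (2 * n) + i)

/-- The constant loaded at level `t`: digit of the degree minus digit of the number of chips
plus one. -/
def sDig (I : Inst) (v t : ℕ) : Bool × List Bool :=
  bif (degL I v).getD t false then
    (bif (addB [true] (I.2.getD v [])).getD t false then (false, []) else (false, [true]))
  else (bif (addB [true] (I.2.getD v [])).getD t false then (true, [true]) else (false, []))

/-- The vertex whose value is loaded at level `t` into the register `n + p`. -/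
def uTgt (I : Inst) (v t p : ℕ) : ℕ := bif (mlB I p v).getD t false then p else v

/-- The edge of the register `n + p` after loading level `t`. -/
def uEdge (I : Inst) (v t p : ℕ) : WEdge :=
  (uTgt I v t p, bif decide (p = 0) then sDig I v t else (false, []))

/-- The register `i` of the row `l` of the vertex `v`; `o` is the operation which produces the
row, `q` is the numbering of the previous row. -/
def gateO (I : Inst) (v : ℕ) (o : Op) (q : ℕ → ℕ) (i : ℕ) : Bool × List WEdge :=
  bif decide (o.1 = 0) then
    (bif decide (i = o.2) then (false, [e0 (q o.2), e0 (q (o.2 + 1))])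
     else bif decide (i = o.2 + 1) then (true, [e0 (q o.2), e0 (q (o.2 + 1))])
     else (false, [e0 (q i)]))
  else bif decide (o.1 = 1) then
    (bif decide (i = 0) then
      (true, [e0 (q 0), (q (2 * I.2.length - 1), true, pw o.2)])
     else bif decide (i = 2 * I.2.length - 1) then
      (false, [e0 (q (2 * I.2.length - 1)), (q 0, false, pw o.2)])
     else (false, [e0 (q i)]))
  else (bif decide (i + 1 ≤ I.2.length) then (false, [e0 (q (2 * i))])
    else (false, [uEdge I v o.2 (i - I.2.length)]))

/-- The register `i` of the row `l` of the vertex `v`. -/
def gate (I : Inst) (v l i : ℕ) : Bool × List WEdge :=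
  bif decide (l = 0) then (false, [e0 v])
  else gateO I v ((progI I).getD (l - 1) (0, 0))
    (nodeI I.2.length (progI I).length v (l - 1)) i

/-- The min-max system of an instance: the vertices of the multidigraph, whose values differ by
at most `2 ^ bdI I` and are at most the first register of the last row, and the registers. -/
def mmOf (I : Inst) : Arena :=
  (List.range I.2.length).map (fun v =>
    (false, e0 (nodeI I.2.length (progI I).length v (progI I).length 0) ::
      (List.range I.2.length).map fun u => (u, false, pw (bdI I)))) ++
  (List.range I.2.length).flatMap fun v =>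
    (List.range ((progI I).length + 1)).flatMap fun l =>
      (List.range (2 * I.2.length)).map fun i => gate I v l i

/-- The value loaded at level `t` into the register `n + p` for given values of the vertices. -/
def uVal (I : Inst) (x : ℕ → ℤ) (v t p : ℕ) : ℤ :=
  x (uTgt I v t p) + wgt (uEdge I v t p)

/-- The system in terms of rows. -/
def RowSol (I : Inst) (x : ℕ → ℤ) : Prop :=
  (∀ u < I.2.length, ∀ v < I.2.length, x v ≤ x u + 2 ^ bdI I) ∧
    ∀ v < I.2.length, x v ≤ runR I.2.length (uVal I x v) (progI I) (fun _ => x v) 0

end Pool.Agent.Work.MP_85af13_lc.G
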