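import Pool.Agent.Work.MP_85af13_lc.LangU
import Pool.Agent.Work.MP_85af13_lc.Ops
import Pool.Agent.Work.PolyTime.Raw

/-!
Mean payoff games, min-max systems and simple stochastic games as languages of bit strings.
-/

set_option autoImplicit false

namespace Pool.Agent.Work.MP_85af13_lc.G

open Pool.Agent.Work.PolyTime

/-- An edge of a game: its target, its sign (`true` for a negative weight) and the absolute value
of its weight in binary. -/
abbrev WEdge : Type := ℕ × Bool × List Bool

/-- The weight of an edge. -/
def wgt (e : WEdge) : ℤ := if e.2.1 then -(binVal e.2.2 : ℤ) else binVal e.2.2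

/-- A game arena with vertices `0, 1, ..`: for every vertex its owner (`true`: the maximizer,
`false`: the minimizer) and the list of its outgoing edges. -/
abbrev Arena : Type := List (Bool × List WEdge)

/-- The owner of a vertex. -/
def owner (A : Arena) (v : ℕ) : Bool := (A.getD v (true, [])).1

/-- The outgoing edges of a vertex. -/
def edges (A : Arena) (v : ℕ) : List WEdge := (A.getD v (true, [])).2

/-- All edges end in vertices. -/
def Closed (A : Arena) : Prop := ∀ v < A.length, ∀ e ∈ edges A v, e.1 < A.length

/-! ### Mean payoff games -/

/-- A positional strategy chooses an outgoing edge at every vertex (only the choices at the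
vertices of its player are used). -/
def Strat (A : Arena) (σ : ℕ → WEdge) : Prop := ∀ v < A.length, σ v ∈ edges A v

/-- The edge taken at `v` if the maximizer uses `σ` and the minimizer uses `τ`. -/
def move (A : Arena) (σ τ : ℕ → WEdge) (v : ℕ) : WEdge := if owner A v then σ v else τ v

/-- The position after `t` moves from `s`. -/
def pos (A : Arena) (σ τ : ℕ → WEdge) (s : ℕ) : ℕ → ℕ
  | 0 => s
  | t + 1 => (move A σ τ (pos A σ τ s t)).1

/-- The maximizer has a positional strategy such that against every positional strategy of the
minimizer the cycle reached by the play from `s` has nonnegative total weight: whenever the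
positions at times `m` and `m + k` are equal, the total weight of the moves between them is
nonnegative. This says that the value of `s` in the mean payoff game is at least `0`. -/
def ValueNonneg (A : Arena) (s : ℕ) : Prop :=
  ∃ σ, Strat A σ ∧ ∀ τ, Strat A τ → ∀ m k, pos A σ τ s (m + k) = pos A σ τ s m →
    0 ≤ ∑ i ∈ Finset.range k, wgt (move A σ τ (pos A σ τ s (m + i)))

/-- Instances of the mean payoff problem: an arena in which every vertex has an outgoing edge and
all edges end in vertices, and a start vertex. -/
def MPWF (I : Arena × ℕ) : Prop :=
  I.2 < I.1.length ∧ (∀ v < I.1.length, edges I.1 v ≠ []) ∧ Closed I.1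

/-- The mean payoff game problem (weights in binary): is the value of the start vertex at
least `0`? -/
def meanPayoff : Set (List Bool) :=
  {w | ∃ I : Arena × ℕ, w = (code I).ser ∧ MPWF I ∧ ValueNonneg I.1 I.2}

/-! ### Min-max systems -/

/-- The vertices can be given integers such that every vertex of the maximizer satisfies
`x v ≤ x u + w` for some, and every vertex of the minimizer for all of its edges `(u, w)`. -/
def Sol (A : Arena) (x : ℕ → ℤ) : Prop :=
  ∀ v < A.length, (owner A v = true → ∃ e ∈ edges A v, x v ≤ x e.1 + wgt e) ∧
    (owner A v = false → ∀ e ∈ edges A v, x v ≤ x e.1 + wgt e)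

/-- The min-max system has a solution. -/
def Feasible (A : Arena) : Prop := ∃ x : ℕ → ℤ, Sol A x

/-- The feasibility problem of min-max systems. -/
def minMax : Set (List Bool) := {w | ∃ A : Arena, w = (code A).ser ∧ Closed A ∧ Feasible A}

/-! ### Simple stochastic games -/

/-- A simple stochastic game: for every vertex its kind (`some true`: max, `some false`: min,
`none`: average) and its two successors (`Sum.inl u`: vertex `u`, `Sum.inr b`: a sink), and a
start vertex. -/
abbrev SInst : Type := List (Option Bool × (ℕ ⊕ Bool) × (ℕ ⊕ Bool)) × ℕ

/-- Kinds. -/
def kindOf : Option Bool → Kind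
  | some true => Kind.max
  | some false => Kind.min
  | none => Kind.avg

/-- Positions; numbers that are not vertices are read as the 0-sink. -/
def toPos (n : ℕ) : ℕ ⊕ Bool → Fin n ⊕ Bool
  | Sum.inl u => if h : u < n then Sum.inl ⟨u, h⟩ else Sum.inr false
  | Sum.inr b => Sum.inr b

/-- The game of an instance. -/
def gameOf (I : SInst) : SSG I.1.length where
  kind v := kindOf (I.1.getD v (none, Sum.inr false, Sum.inr false)).1
  succ v i := toPos I.1.length (bif i then (I.1.getD v (none, Sum.inr false, Sum.inr false)).2.2
    else (I.1.getD v (none, Sum.inr false, Sum.inr false)).2.1)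

/-- The problem of simple stochastic games: is the value of the start vertex at least one
half? -/
def stochastic : Set (List Bool) :=
  {w | ∃ I : SInst, w = (code I).ser ∧ ∃ h : I.2 < I.1.length,
    (gameOf I).ValueAtLeastHalf ⟨I.2, h⟩}

/-- The same problem for stopping games. -/
def stochasticStop : Set (List Bool) :=
  {w | ∃ I : SInst, w = (code I).ser ∧ (gameOf I).Stopping ∧ ∃ h : I.2 < I.1.length,
    (gameOf I).ValueAtLeastHalf ⟨I.2, h⟩}

end Pool.Agent.Work.MP_85af13_lc.G
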