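import Pool.Agent.Work.MP_85af13_lc.G.A.RedA
import Pool.Agent.Work.MP_85af13_lc.G.B.RedB
import Pool.Agent.Work.MP_85af13_lc.G.C.RedC
import Pool.Agent.Work.MP_85af13_lc.G.D.RedD
import Pool.Agent.Work.MP_85af13_lc.G.E.Main

/-!
Halting of Eulerian chip-firing games, mean payoff games and simple stochastic games are
equivalent under polynomial-time reductions.
-/

set_option autoImplicit false

namespace Pool.Agent.Work.MP_85af13_lc.G

open Pool.Agent.Work.PolyTime

theorem halting_le_meanPayoff : PolyReducible haltingEulerian meanPayoff :=
  halting_le_minMax.trans minMax_le_meanPayoff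

theorem meanPayoff_le_halting : PolyReducible meanPayoff haltingEulerian :=
  meanPayoff_le_minMax.trans minMax_le_halting

theorem stochastic_le_halting : PolyReducible stochastic haltingEulerian :=
  stochastic_le_of (PTime.gInst PTime.id) gInst_main

theorem halting_le_stochastic : PolyReducible haltingEulerian stochastic :=
  halting_le_meanPayoff.trans E.reducible_stochastic

/-- Simple stochastic games reduce to mean payoff games. -/
theorem stochastic_le_meanPayoff : PolyReducible stochastic meanPayoff :=
  stochastic_le_halting.trans halting_le_meanPayoff

end Pool.Agent.Work.MP_85af13_lc.G
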